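import Pool.Agent.U810.SW.Rot2
import Pool.Agent.W226.MP.Place

/-!
# Windows of digits of the numbers `x + m ξ`

At a place `p` where the `q ξ g ^ p`, `1 ≤ q ≤ Q`, are at a distance `≥ 1 / M` of the integers, for most
of the `m < M` every word stands in the window of digits of `x + m ξ` that begins at `p`.
-/

set_option autoImplicit false

open Finset

namespace Pool.Agent.U810.SW

/-- the numbers `< G ^ t` without the digit `v` among their `t` last digits in base `G` -/
def av (G t v : ℕ) : Finset ℕ := (range (G ^ t)).filter (fun J => ∀ j < t, J / G ^ j % G ≠ v)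

lemma card_av {G v : ℕ} (hv : v < G) (t : ℕ) : (av G t v).card ≤ (G - 1) ^ t := by
  induction t with
  | zero =>
    unfold av
    refine (card_filter_le _ _).trans ?_
    simp
  | succ t ih =>
    have h1 : (av G (t + 1) v).card ≤ (av G t v ×ˢ (range G).erase v).card := by
      apply card_le_card_of_injOn (fun J => (J / G, J % G))
      · intro J hJ
        obtain ⟨hJ1, hJ2⟩ := mem_filter.1 (mem_coe.1 hJ)
        rw [mem_range] at hJ1
        rw [mem_coe, mem_product]
        refine ⟨mem_filter.2 ⟨mem_range.2 ?_, ?_⟩, mem_erase.2 ⟨?_, mem_range.2 ?_⟩⟩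
        · show J / G < G ^ t
          rw [Nat.div_lt_iff_lt_mul (by omega), ← pow_succ]
          exact hJ1
        · intro j hj
          show J / G / G ^ j % G ≠ v
          rw [Nat.div_div_eq_div_mul, ← pow_succ']
          exact hJ2 (j + 1) (by omega)
        · show J % G ≠ v
          have := hJ2 0 (by omega)
          simpa using this
        · exact Nat.mod_lt _ (by omega)
      · intro J _ J' _ h
        simp only [Prod.mk.injEq] at h
        rw [← Nat.div_add_mod J G, ← Nat.div_add_mod J' G, h.1, h.2]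
    refine h1.trans ?_
    rw [card_product, card_erase_of_mem (mem_range.2 hv), card_range, pow_succ]
    exact Nat.mul_le_mul_right _ ih

/-- the number of the window of `t` digits in base `G` of `y` -/
noncomputable def win (G t : ℕ) (y : ℝ) : ℕ := ⌊Int.fract y * (G : ℝ) ^ t⌋₊

lemma win_lt {G : ℕ} (hG : 1 ≤ G) (t : ℕ) (y : ℝ) : win G t y < G ^ t := by
  unfold win
  have hGR : (1 : ℝ) ≤ G := by exact_mod_cast hG
  rw [Nat.floor_lt (mul_nonneg (Int.fract_nonneg y) (by positivity))]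
  push_cast
  have := Int.fract_lt_one y
  have h2 : (0 : ℝ) < (G : ℝ) ^ t := by positivity
  nlinarith

lemma win_mem_H {G t M m : ℕ} (hG : 1 ≤ G) (hm : m < M) (θ x : ℝ) :
    m ∈ H θ ((win G t (x + m * θ) : ℝ) / (G : ℝ) ^ t - x) (1 / (G : ℝ) ^ t) M := by
  have hGR : (1 : ℝ) ≤ G := by exact_mod_cast hG
  have h0 : (0 : ℝ) < (G : ℝ) ^ t := by positivity
  rw [mem_H]
  refine ⟨hm, ⌊x + m * θ⌋, ?_, ?_⟩
  · have h1 : (win G t (x + m * θ) : ℝ) ≤ Int.fract (x + m * θ) * (G : ℝ) ^ t :=
      Nat.floor_le (mul_nonneg (Int.fract_nonneg _) h0.le)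
    have h2 : (win G t (x + m * θ) : ℝ) / (G : ℝ) ^ t ≤ Int.fract (x + m * θ) := by
      rw [div_le_iff₀ h0]; exact h1
    have h3 := Int.floor_add_fract (x + (m : ℝ) * θ)
    linarith
  · have h1 : Int.fract (x + m * θ) * (G : ℝ) ^ t < (win G t (x + m * θ) : ℝ) + 1 :=
      Nat.lt_floor_add_one _
    have h2 : Int.fract (x + m * θ) < (win G t (x + m * θ) : ℝ) / (G : ℝ) ^ t + 1 / (G : ℝ) ^ t := by
      rw [← add_div, lt_div_iff₀ h0]; exact h1
    have h3 := Int.floor_add_fract (x + (m : ℝ) * θ)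
    linarith

/-- `v` is missing in the window -/
def Miss (G t v : ℕ) (y : ℝ) : Prop := ∀ u < t, ⌊y * (G : ℝ) ^ (u + 1)⌋ % (G : ℤ) ≠ (v : ℤ)

lemma win_av {G t v : ℕ} (hG : 1 ≤ G) {y : ℝ} (h : Miss G t v y) : win G t y ∈ av G t v := by
  refine mem_filter.2 ⟨mem_range.2 (win_lt hG t y), fun j hj heq => ?_⟩
  apply h (t - 1 - j) (by omega)
  rw [Pool.Agent.W226.MP.digit_eq G t hG y (t - 1 - j) (by omega)]
  have : t - 1 - (t - 1 - j) = j := by omega
  have heq' : ⌊Int.fract y * (G : ℝ) ^ t⌋₊ / G ^ j % G = v := heq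
  rw [this, heq']

open Classical in
/-- For most of the `m < M` no digit is missing in the window. -/
theorem card_miss {G t M : ℕ} {θ : ℝ} (x : ℝ) (hG : 2 ≤ G) (ht : 1 ≤ t) (hM : G ^ t ≤ M)
    (h : ∀ q : ℕ, 1 ≤ q → q ≤ G ^ t / 2 → ∀ a : ℤ, 1 / (M : ℝ) ≤ |(q : ℝ) * θ - a|) :
    (((range M).filter (fun m : ℕ => ∃ v < G, Miss G t v (x + m * θ))).card : ℝ) ≤
      11 * G * (1 - 1 / (G : ℝ)) ^ t * M := by
  have hGR : (2 : ℝ) ≤ G := by exact_mod_cast hG
  have hGt : 2 ≤ G ^ t := by
    calc 2 ≤ G := hG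
      _ = G ^ 1 := (pow_one G).symm
      _ ≤ G ^ t := Nat.pow_le_pow_right (by omega) ht
  have h0 : (0 : ℝ) < (G : ℝ) ^ t := by positivity
  set Q := G ^ t / 2 with hQ
  have hQ1 : 1 ≤ Q := by omega
  have hQ3 : G ^ t ≤ 3 * Q := by omega
  have hQ2 : 2 * Q ≤ G ^ t := by omega
  have hM1 : 1 ≤ M := by omega
  have hMR : (G : ℝ) ^ t ≤ M := by exact_mod_cast hM
  have hQR : (1 : ℝ) ≤ Q := by exact_mod_cast hQ1
  -- each window is the window of few `m`
  have hcell : ∀ J : ℕ, ((H θ ((J : ℝ) / (G : ℝ) ^ t - x) (1 / (G : ℝ) ^ t) M).card : ℝ) ≤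
      11 * M / (G : ℝ) ^ t := by
    intro J
    have h1 := rot2 (θ := θ) (δ := 1 / (G : ℝ) ^ t) ((J : ℝ) / (G : ℝ) ^ t - x) (M := M) (Q := Q)
      (by positivity) hM1 hQ1 (by
        rw [mul_one_div, div_le_one h0]
        exact_mod_cast hQ2) h
    have h2 : (M : ℝ) / Q ≤ 3 * M / (G : ℝ) ^ t := by
      rw [div_le_div_iff₀ (by linarith) h0]
      have h3 : (G : ℝ) ^ t ≤ 3 * Q := by exact_mod_cast hQ3
      nlinarith
    have h3 : (2 : ℝ) ≤ 2 * M / (G : ℝ) ^ t := by
      rw [le_div_iff₀ h0]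
      linarith
    have h4 : 6 * (1 / (G : ℝ) ^ t) * M = 6 * M / (G : ℝ) ^ t := by ring
    calc ((H θ ((J : ℝ) / (G : ℝ) ^ t - x) (1 / (G : ℝ) ^ t) M).card : ℝ)
        ≤ M / Q + 6 * (1 / (G : ℝ) ^ t) * M + 2 := h1
      _ ≤ 3 * M / (G : ℝ) ^ t + 6 * M / (G : ℝ) ^ t + 2 * M / (G : ℝ) ^ t := by
        rw [h4]; linarith
      _ = 11 * M / (G : ℝ) ^ t := by ring
  have hsub : (range M).filter (fun m : ℕ => ∃ v < G, Miss G t v (x + m * θ)) ⊆
      (range G).biUnion (fun v => (av G t v).biUnion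
        (fun J => H θ ((J : ℝ) / (G : ℝ) ^ t - x) (1 / (G : ℝ) ^ t) M)) := by
    intro m hm
    obtain ⟨hmM, v, hv, hmiss⟩ := mem_filter.1 hm
    rw [mem_range] at hmM
    rw [mem_biUnion]
    refine ⟨v, mem_range.2 hv, ?_⟩
    rw [mem_biUnion]
    exact ⟨_, win_av (by omega) hmiss, win_mem_H (by omega) hmM θ x⟩
  have hav : ∀ v ∈ range G, ((((av G t v).biUnion
        (fun J => H θ ((J : ℝ) / (G : ℝ) ^ t - x) (1 / (G : ℝ) ^ t) M)).card : ℕ) : ℝ) ≤
      ((G : ℝ) - 1) ^ t * (11 * M / (G : ℝ) ^ t) := by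
    intro v hv
    have h1 : ((((av G t v).biUnion
        (fun J => H θ ((J : ℝ) / (G : ℝ) ^ t - x) (1 / (G : ℝ) ^ t) M)).card : ℕ) : ℝ) ≤
        ∑ J ∈ av G t v, ((H θ ((J : ℝ) / (G : ℝ) ^ t - x) (1 / (G : ℝ) ^ t) M).card : ℝ) := by
      exact_mod_cast card_biUnion_le
    have h2 : ∑ J ∈ av G t v, ((H θ ((J : ℝ) / (G : ℝ) ^ t - x) (1 / (G : ℝ) ^ t) M).card : ℝ) ≤
        (av G t v).card * (11 * M / (G : ℝ) ^ t) := by
      rw [← nsmul_eq_mul, ← sum_const]
      exact sum_le_sum fun J _ => hcell J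
    have h3 : ((av G t v).card : ℝ) ≤ ((G : ℝ) - 1) ^ t := by
      have h4 : (((G - 1 : ℕ) : ℝ)) = (G : ℝ) - 1 := by
        rw [Nat.cast_sub (by omega)]; simp
      rw [← h4]
      exact_mod_cast card_av (mem_range.1 hv) t
    exact h1.trans (h2.trans (mul_le_mul_of_nonneg_right h3 (by positivity)))
  have h1 : (((range M).filter (fun m : ℕ => ∃ v < G, Miss G t v (x + m * θ))).card : ℝ) ≤
      ∑ v ∈ range G, ((((av G t v).biUnion
        (fun J => H θ ((J : ℝ) / (G : ℝ) ^ t - x) (1 / (G : ℝ) ^ t) M)).card : ℕ) : ℝ) := by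
    have := (card_le_card hsub).trans card_biUnion_le
    exact_mod_cast this
  have h2 := h1.trans (sum_le_sum hav)
  rw [sum_const, card_range, nsmul_eq_mul] at h2
  refine h2.trans (le_of_eq ?_)
  have h3 : (1 - 1 / (G : ℝ)) ^ t = ((G : ℝ) - 1) ^ t / (G : ℝ) ^ t := by
    rw [← div_pow]
    congr 1
    field_simp
  rw [h3]
  field_simp

open Classical in
/-- double counting -/
lemma double (P : Finset ℕ) (M : ℕ) (bad : ℕ → ℕ → Prop) {B : ℝ} (hB : 0 ≤ B)
    (h : ∀ p ∈ P, (((range M).filter (fun m => bad m p)).card : ℝ) ≤ B) :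
    (((range M).filter (fun m => P.card < 2 * (P.filter (fun p => bad m p)).card)).card : ℝ) ≤
      2 * B := by
  set E := (range M).filter (fun m => P.card < 2 * (P.filter (fun p => bad m p)).card) with hE
  rcases Nat.eq_zero_or_pos P.card with h0 | h0
  · have : E = ∅ := by
      rw [hE, filter_eq_empty_iff]
      intro m _ hc
      have := card_filter_le P (fun p => bad m p)
      omega
    rw [this]
    simpa using hB
  · have h1 : ∑ m ∈ E, (P.filter (fun p => bad m p)).card ≤
        ∑ m ∈ range M, (P.filter (fun p => bad m p)).card :=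
      sum_le_sum_of_subset (filter_subset _ _)
    have h2 : ∑ m ∈ range M, (P.filter (fun p => bad m p)).card =
        ∑ p ∈ P, ((range M).filter (fun m => bad m p)).card := by
      simp only [card_filter]
      exact sum_comm
    have h3 : E.card * P.card ≤ ∑ m ∈ E, 2 * (P.filter (fun p => bad m p)).card := by
      rw [← smul_eq_mul, ← sum_const]
      exact sum_le_sum fun m hm => (mem_filter.1 hm).2.le
    rw [← mul_sum] at h3
    have h4 : ∑ p ∈ P, (((range M).filter (fun m => bad m p)).card : ℝ) ≤ P.card * B := by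
      rw [← nsmul_eq_mul, ← sum_const]
      exact sum_le_sum h
    have h5 : ((E.card * P.card : ℕ) : ℝ) ≤
        2 * ∑ p ∈ P, (((range M).filter (fun m => bad m p)).card : ℝ) := by
      exact_mod_cast h3.trans (Nat.mul_le_mul_left 2 (h1.trans h2.le))
    push_cast at h5
    have h6 : (0 : ℝ) < P.card := by exact_mod_cast h0
    have h7 : (E.card : ℝ) * P.card ≤ 2 * B * P.card := by linarith
    exact le_of_mul_le_mul_right h7 h6

/-- the number of the places `i` with `i + k ≤ n` at which the word `w` stands in `y`: the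
`(i + 1)`-th, …, `(i + k)`-th digits of `y` are `w 0, …, w (k - 1)` -/
noncomputable def count (g k : ℕ) (w : Fin k → Fin g) (y : ℝ) (n : ℕ) : ℕ :=
  {i : ℕ | i + k ≤ n ∧ Pool.Agent.W226.MP.OccursAt g k w y i}.ncard

lemma finite_count (g k : ℕ) (w : Fin k → Fin g) (y : ℝ) (n : ℕ) :
    {i : ℕ | i + k ≤ n ∧ Pool.Agent.W226.MP.OccursAt g k w y i}.Finite :=
  (Set.finite_le_nat n).subset (fun i hi => (Nat.le_add_right i k).trans hi.1)

open Classical in
/-- the windows with no missing digit contain many occurrences of each word -/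
lemma count_ge {g k t n : ℕ} (hg : 2 ≤ g) (P : Finset ℕ) (hP : ∀ p ∈ P, p + k * t ≤ n)
    (y : ℝ) (h : 2 * (P.filter (fun p => ∃ v < g ^ k, Miss (g ^ k) t v (y * (g : ℝ) ^ p))).card ≤
      P.card) (w : Fin k → Fin g) : P.card ≤ 2 * (t * count g k w y n) := by
  have hfin := finite_count g k w y n
  set O := hfin.toFinset with hO
  have hOc : count g k w y n = O.card := Set.ncard_eq_toFinset_card _ hfin
  set N := P.filter (fun p => ¬ ∃ v < g ^ k, Miss (g ^ k) t v (y * (g : ℝ) ^ p)) with hN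
  have h1 : N.card + (P.filter (fun p => ∃ v < g ^ k, Miss (g ^ k) t v (y * (g : ℝ) ^ p))).card =
      P.card := by
    rw [add_comm]
    exact card_filter_add_card_filter_not _
  have h2 : N.card * 1 ≤ O.card * t := by
    apply card_mul_le_card_mul (fun p i => ∃ u < t, i = p + k * u)
    · intro p hp
      obtain ⟨hpP, hp2⟩ := mem_filter.1 hp
      push Not at hp2
      have hvlt := Pool.Agent.W226.MP.val_lt g (Pool.Agent.W226.MP.ext g k w)
        (Pool.Agent.W226.MP.ext_lt g k hg w) k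
      have h3 := hp2 _ hvlt
      unfold Miss at h3
      push Not at h3
      obtain ⟨u, hu, h4⟩ := h3
      rw [one_le_card]
      refine ⟨p + k * u, ?_⟩
      rw [mem_bipartiteAbove]
      refine ⟨?_, u, hu, rfl⟩
      rw [hO, Set.Finite.mem_toFinset]
      refine ⟨?_, ?_⟩
      · have h5 := hP p hpP
        have h6 : k * u + k ≤ k * t := by
          calc k * u + k = k * (u + 1) := by ring
            _ ≤ k * t := Nat.mul_le_mul_left _ hu
        omega
      · rw [Pool.Agent.W226.MP.occursAt_iff, Pool.Agent.W226.MP.occ_iff g (by omega) _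
          (Pool.Agent.W226.MP.ext_lt g k hg w)]
        have h5 : y * (g : ℝ) ^ p * (((g ^ k : ℕ) : ℝ)) ^ (u + 1) = y * (g : ℝ) ^ (p + k * u + k) := by
          push_cast
          rw [mul_assoc, ← pow_mul, ← pow_add]
          congr 2
          ring
        rw [h5] at h4
        push_cast at h4
        exact h4
    · intro i _
      have hsub : bipartiteBelow (fun p i => ∃ u < t, i = p + k * u) N i ⊆
          (range t).image (fun u => i - k * u) := by
        intro p hp
        rw [mem_bipartiteBelow] at hp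
        obtain ⟨-, u, hu, h3⟩ := hp
        rw [mem_image]
        exact ⟨u, mem_range.2 hu, by omega⟩
      exact (card_le_card hsub).trans (card_image_le.trans (card_range t).le)
  rw [hOc]
  have h3 : O.card * t = t * O.card := mul_comm _ _
  omega

end Pool.Agent.U810.SW
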