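import Pool.Agent.U810.SW.Places
import Pool.Agent.U810.SW.Windows

/-!
# Words in the digits of `x + m η / p ^ s`
-/

set_option autoImplicit false

open Finset

namespace Pool.Agent.U810.SW

lemma good {z ξ : ℝ} {g L D q M pl : ℕ} (hg : 2 ≤ g) (hD : 1 ≤ D) (hz : z = D * ξ) (hq : q ∣ D)
    (hpl : 1 / (2 * (g : ℝ) ^ L) ≤ nd (z * (g : ℝ) ^ pl)) (hM : 2 * D * g ^ L ≤ M) (a : ℤ) :
    1 / (M : ℝ) ≤ |(q : ℝ) * (ξ * (g : ℝ) ^ pl) - a| := by
  obtain ⟨D', hD'⟩ := hq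
  have hgR : (2 : ℝ) ≤ g := by exact_mod_cast hg
  have hDR : (1 : ℝ) ≤ D := by exact_mod_cast hD
  have hMR : 2 * (D : ℝ) * (g : ℝ) ^ L ≤ M := by exact_mod_cast hM
  have h0 : (0 : ℝ) < (g : ℝ) ^ L := by positivity
  have h1 := nd_le (z * (g : ℝ) ^ pl) (D' * a)
  have h2 : z * (g : ℝ) ^ pl - ((D' * a : ℤ) : ℝ) = D' * ((q : ℝ) * (ξ * (g : ℝ) ^ pl) - a) := by
    rw [hz, hD']
    push_cast
    ring
  rw [h2, abs_mul, Nat.abs_cast] at h1
  have hq1 : 1 ≤ q := by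
    rcases Nat.eq_zero_or_pos q with h | h
    · rw [h] at hD'; omega
    · exact h
  have h3 : (D' : ℝ) ≤ D := by
    have : D' ≤ D := by rw [hD']; exact Nat.le_mul_of_pos_left _ hq1
    exact_mod_cast this
  set f := |(q : ℝ) * (ξ * (g : ℝ) ^ pl) - a| with hf
  have hf0 : 0 ≤ f := abs_nonneg _
  have h4 : (D' : ℝ) * f ≤ D * f := mul_le_mul_of_nonneg_right h3 hf0
  have h5 := hpl.trans (h1.trans h4)
  have hM0 : (0 : ℝ) < M := lt_of_lt_of_le (by positivity) hMR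
  rw [div_le_iff₀ (by positivity)] at h5 ⊢
  calc (1 : ℝ) ≤ D * f * (2 * (g : ℝ) ^ L) := h5
    _ = f * (2 * D * (g : ℝ) ^ L) := by ring
    _ ≤ f * M := mul_le_mul_of_nonneg_left hMR hf0

open Classical in
theorem main {g k : ℕ} (hg : 2 ≤ g) (hk : 1 ≤ k) {p s : ℕ} (hp : p.Prime) (hpg : ¬ p ∣ g)
    {a b c : ℤ} {η : ℝ} (hη : (a : ℝ) * η ^ 2 + b * η + c = 0)
    (hc : ¬ (p : ℤ) ∣ c) {t : ℕ} (ht : 1 ≤ t) (hts : (g ^ k) ^ t ≤ p ^ s) :
    ∃ D ≥ 1, ∃ L₀ : ℕ, ∀ L ≥ L₀, ∃ n₀ : ℕ, ∀ M : ℕ, 2 * D * g ^ L ≤ M → ∀ n ≥ n₀, ∀ x : ℝ,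
      (((range M).filter (fun m : ℕ => ∃ w : Fin k → Fin g,
        ¬ (L * n ≤ 576 * t ^ 2 * (count g k w (x + m * (η / (p : ℝ) ^ s)) n) ^ 2))).card : ℝ) ≤
        22 * (g : ℝ) ^ k * (1 - 1 / (g : ℝ) ^ k) ^ t * M := by
  have hgR : (2 : ℝ) ≤ g := by exact_mod_cast hg
  set G := g ^ k with hG
  have hG2 : 2 ≤ G := by
    calc 2 ≤ g := hg
      _ = g ^ 1 := (pow_one g).symm
      _ ≤ g ^ k := Nat.pow_le_pow_right (by omega) hk
  have hGR : (2 : ℝ) ≤ G := by exact_mod_cast hG2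
  set Q := G ^ t / 2 with hQ
  have hGt0 : 0 < G ^ t := by positivity
  have hQs : Q < p ^ s := by omega
  set D := Nat.lcmUpto Q with hD
  have hD0 : D ≠ 0 := Nat.lcmUpto_ne_zero Q
  have hDdvd : ∀ q, 1 ≤ q → q ≤ Q → q ∣ D := by
    intro q h1 h2
    exact Finset.dvd_lcm (f := id) (mem_Icc.2 ⟨h1, h2⟩)
  obtain ⟨j, D', hD'1, hD'2⟩ := Nat.exists_eq_pow_mul_and_not_dvd hD0 p hp.ne_one
  have hjs : j < s := by
    by_contra hcon
    push Not at hcon
    have h1 : p ^ s ∣ D := by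
      rw [hD'2]
      exact (pow_dvd_pow p hcon).mul_right _
    rw [hp.pow_dvd_iff_le_factorization hD0, hD, Nat.factorization_lcmUpto Q hp] at h1
    rcases Nat.eq_zero_or_pos Q with h0 | h0
    · rw [h0, Nat.log_zero_right] at h1
      have : G ^ t / 2 = 0 := by omega
      have h2 : 2 ≤ G ^ t := by
        calc 2 ≤ G := hG2
          _ = G ^ 1 := (pow_one G).symm
          _ ≤ G ^ t := Nat.pow_le_pow_right (by omega) ht
      omega
    · have := Nat.pow_le_of_le_log (by omega) h1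
      omega
  obtain ⟨r, hr⟩ : ∃ r, s = j + r := ⟨s - j, by omega⟩
  have hr1 : 1 ≤ r := by omega
  have hpR : (0 : ℝ) < p := by exact_mod_cast hp.pos
  set ξ := η / (p : ℝ) ^ s with hξ
  set z := (D : ℝ) * ξ with hz
  have hDR : (D : ℝ) = (p : ℝ) ^ j * D' := by exact_mod_cast hD'2
  have hD'0 : (D' : ℝ) ≠ 0 := by
    intro h0
    apply hD0
    have : D' = 0 := by exact_mod_cast h0
    rw [hD'2, this, mul_zero]
  have hz' : z * (p : ℝ) ^ r = D' * η := by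
    rw [hz, hξ, hDR, hr, pow_add]
    field_simp
  set α : ℤ := a * (p : ℤ) ^ (2 * r) with hα
  set β : ℤ := b * (p : ℤ) ^ r * D' with hβ
  set γ : ℤ := c * (D' : ℤ) ^ 2 with hγ
  have hzeq : (α : ℝ) * z ^ 2 + β * z + γ = 0 := by
    rw [hα, hβ, hγ]
    push_cast
    have h1 : (p : ℝ) ^ (2 * r) * z ^ 2 = (D' * η) ^ 2 := by
      rw [← hz']
      ring
    linear_combination (a : ℝ) * h1 + (b : ℝ) * D' * hz' + (D' : ℝ) ^ 2 * hη
  have hpi : Prime (p : ℤ) := Nat.prime_iff_prime_int.1 hp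
  have hpα : (p : ℤ) ∣ α := (dvd_pow_self _ (by omega)).mul_left _
  have hpβ : (p : ℤ) ∣ β := ((dvd_pow_self _ (by omega)).mul_left _).mul_right _
  have hpγ : ¬ (p : ℤ) ∣ γ := by
    intro h
    rcases hpi.dvd_or_dvd h with h1 | h1
    · exact hc h1
    · exact hD'1 (by exact_mod_cast hpi.dvd_of_dvd_pow h1)
  refine ⟨D, by omega, α.natAbs + k * t + 2, fun L hL => ?_⟩
  have hgL : L < g ^ L := Nat.lt_pow_self (by omega)
  obtain ⟨n₁, hn₁⟩ := many_places (z := z) (L := L) hg (by omega) hp hpα hpβ hpγ hpg hzeq (by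
    have h1 : |α| = (α.natAbs : ℤ) := Int.abs_eq_natAbs α
    rw [h1]
    have h2 : α.natAbs ≤ g ^ L := by omega
    exact_mod_cast h2)
  refine ⟨n₁ + 2 * (k * t), fun M hM n hn x => ?_⟩
  have hMR : 2 * (D : ℝ) * (g : ℝ) ^ L ≤ M := by exact_mod_cast hM
  set P := Pl z g L (n - k * t) with hP
  have hPc := hn₁ (n - k * t) (by omega)
  rw [← hP] at hPc
  have hGM : G ^ t ≤ M := by
    have h1 : G ^ t = g ^ (k * t) := by rw [hG, ← pow_mul]
    have h2 : g ^ (k * t) ≤ g ^ L := Nat.pow_le_pow_right (by omega) (by omega)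
    have h3 : g ^ L ≤ 2 * D * g ^ L := Nat.le_mul_of_pos_left _ (by omega)
    omega
  have hB : (0 : ℝ) ≤ 11 * (G : ℝ) * (1 - 1 / (G : ℝ)) ^ t * M := by
    have : (0 : ℝ) ≤ 1 - 1 / (G : ℝ) := by
      rw [sub_nonneg, div_le_one (by linarith)]
      linarith
    positivity
  have hmain := double P M (fun m pl => ∃ v < G, Miss G t v ((x + m * ξ) * (g : ℝ) ^ pl)) hB (by
    intro pl hpl
    have hpl2 := (mem_filter.1 hpl).2
    have h1 := card_miss (G := G) (t := t) (M := M) (θ := ξ * (g : ℝ) ^ pl) (x * (g : ℝ) ^ pl) hG2 ht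
      hGM (fun q hq1 hq2 a' => good hg (by omega) hz (hDdvd q hq1 hq2) hpl2 hM a')
    have h2 : ∀ m : ℕ, x * (g : ℝ) ^ pl + m * (ξ * (g : ℝ) ^ pl) = (x + m * ξ) * (g : ℝ) ^ pl := by
      intro m; ring
    simp only [h2] at h1
    convert h1)
  have hsub : (range M).filter (fun m : ℕ => ∃ w : Fin k → Fin g,
        ¬ (L * n ≤ 576 * t ^ 2 * (count g k w (x + m * ξ) n) ^ 2)) ⊆
      (range M).filter (fun m => P.card < 2 * (P.filter (fun pl =>
        ∃ v < G, Miss G t v ((x + m * ξ) * (g : ℝ) ^ pl))).card) := by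
    intro m hm
    obtain ⟨hmM, w, hw⟩ := mem_filter.1 hm
    rw [mem_filter]
    refine ⟨hmM, ?_⟩
    by_contra hcon
    push Not at hcon
    apply hw
    have h1 := count_ge (n := n) (t := t) hg P (by
      intro pl hpl
      have := mem_range.1 (mem_filter.1 hpl).1
      omega) (x + m * ξ) hcon w
    set κ := count g k w (x + m * ξ) n with hκ
    have h2 : P.card ^ 2 ≤ (2 * (t * κ)) ^ 2 := Nat.pow_le_pow_left h1 2
    have h3 : n ≤ 2 * (n - k * t) := by omega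
    have h4 : L * n ≤ 2 * (L * (n - k * t)) := by
      have := Nat.mul_le_mul_left L h3
      linarith
    calc L * n ≤ 2 * (L * (n - k * t)) := h4
      _ ≤ 2 * (72 * P.card ^ 2) := by omega
      _ ≤ 2 * (72 * (2 * (t * κ)) ^ 2) := by omega
      _ = 576 * t ^ 2 * κ ^ 2 := by ring
  have h1 := (Nat.cast_le (α := ℝ)).2 (card_le_card hsub)
  refine h1.trans (le_trans (b := 2 * (11 * (G : ℝ) * (1 - 1 / (G : ℝ)) ^ t * M)) ?_ (le_of_eq ?_))
  · refine (le_of_eq ?_).trans hmain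
    congr!
  · rw [hG]
    push_cast
    ring

end Pool.Agent.U810.SW
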