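import Pool.Agent.U810.SW.Signed

/-!
# Many places where `z g ^ p` is not near an integer
-/

set_option autoImplicit false

open Finset

namespace Pool.Agent.U810.SW

/-- the distance to the nearest integer -/
noncomputable def nd (x : ℝ) : ℝ := |x - round x|

lemma nd_le (x : ℝ) (a : ℤ) : nd x ≤ |x - a| := round_le x a

lemma nd_nonneg (x : ℝ) : 0 ≤ nd x := abs_nonneg _

lemma nd_mul_nat (x : ℝ) (g : ℕ) : nd (x * g) ≤ nd x * g := by
  have h1 := nd_le (x * g) (round x * g)
  have h2 : x * g - ((round x * (g : ℤ) : ℤ) : ℝ) = (x - round x) * g := by push_cast; ring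
  rw [h2, abs_mul, Nat.abs_cast] at h1
  exact h1

lemma nd_mul_eq {x : ℝ} {g : ℕ} (h : nd x * g < 1 / 2) : nd (x * g) = nd x * g := by
  have h2 : x * g - ((round x * (g : ℤ) : ℤ) : ℝ) = (x - round x) * g := by push_cast; ring
  have h3 : |x * g - ((round x * (g : ℤ) : ℤ) : ℝ)| < 1 / 2 := by
    rw [h2, abs_mul, Nat.abs_cast]
    exact h
  have h4 : |x * g - round (x * g)| ≤ 1 / 2 := abs_sub_round _
  have h5 : round (x * g) = round x * (g : ℤ) := by
    rw [abs_lt] at h3
    rw [abs_le] at h4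
    have h6 : (round (x * g) : ℝ) < ((round x * (g : ℤ) : ℤ) : ℝ) + 1 := by linarith
    have h7 : ((round x * (g : ℤ) : ℤ) : ℝ) < (round (x * g) : ℝ) + 1 := by linarith
    have h8 : round (x * g) < round x * (g : ℤ) + 1 := by exact_mod_cast h6
    have h9 : round x * (g : ℤ) < round (x * g) + 1 := by exact_mod_cast h7
    omega
  unfold nd
  rw [h5, h2, abs_mul, Nat.abs_cast]

lemma nd_mul_pow (x : ℝ) (g l : ℕ) : nd (x * (g : ℝ) ^ l) ≤ nd x * (g : ℝ) ^ l := by
  have h := nd_mul_nat x (g ^ l)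
  push_cast at h
  exact h

lemma exists_place {g : ℕ} (hg : 2 ≤ g) (L : ℕ) : ∀ y : ℝ, 1 / (2 * (g : ℝ) ^ (L + 1)) ≤ nd y →
    ∃ i ≤ L, 1 / (2 * (g : ℝ)) ≤ nd (y * (g : ℝ) ^ i) := by
  have hgR : (2 : ℝ) ≤ g := by exact_mod_cast hg
  induction L with
  | zero =>
    intro y hy
    exact ⟨0, le_rfl, by simpa using hy⟩
  | succ L ih =>
    intro y hy
    by_cases h : 1 / (2 * (g : ℝ)) ≤ nd y
    · exact ⟨0, Nat.zero_le _, by simpa using h⟩
    · push Not at h
      have h1 : nd y * g < 1 / 2 := by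
        rw [lt_div_iff₀ (by positivity)] at h
        linarith
      have h2 : 1 / (2 * (g : ℝ) ^ (L + 1)) ≤ nd (y * g) := by
        rw [nd_mul_eq h1]
        rw [div_le_iff₀ (by positivity)] at hy ⊢
        calc (1 : ℝ) ≤ nd y * (2 * (g : ℝ) ^ (L + 1 + 1)) := hy
          _ = nd y * g * (2 * (g : ℝ) ^ (L + 1)) := by ring
      obtain ⟨i, hi, h3⟩ := ih (y * g) h2
      refine ⟨i + 1, by omega, ?_⟩
      rw [pow_succ', ← mul_assoc]
      exact h3

/-- the places `p < n` where `z g ^ p` is at a distance `≥ 1 / (2 g ^ L)` of the integers -/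
noncomputable def Pl (z : ℝ) (g L n : ℕ) : Finset ℕ :=
  (range n).filter (fun p => 1 / (2 * (g : ℝ) ^ L) ≤ nd (z * (g : ℝ) ^ p))

lemma th_ge {z : ℝ} {b j : ℕ} (hb : 1 ≤ b) (h : s z b (j + 1) ≠ 0) :
    1 / (2 * (b : ℝ)) ≤ nd (z * (b : ℝ) ^ j) := by
  by_contra hcon
  push Not at hcon
  apply h
  have hbR : (1 : ℝ) ≤ b := by exact_mod_cast hb
  have h1 : |th z b j| < 1 / (2 * (b : ℝ)) := hcon
  rw [lt_div_iff₀ (by positivity)] at h1
  have h2 := th_le z b (j + 1)
  have h3 := s_succ z b j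
  have h4 : |(b : ℝ) * th z b j| < 1 / 2 := by
    rw [abs_mul, Nat.abs_cast]
    linarith
  rw [abs_lt] at h4
  rw [abs_le] at h2
  have h5 : (s z b (j + 1) : ℝ) < 1 := by rw [h3]; linarith
  have h6 : -1 < (s z b (j + 1) : ℝ) := by rw [h3]; linarith
  have h7 : s z b (j + 1) < 1 := by exact_mod_cast h5
  have h8 : -1 < s z b (j + 1) := by exact_mod_cast h6
  omega

/-- The windows below the nonzero signed digits. -/
lemma places_ge {g : ℕ} (hg : 2 ≤ g) (z : ℝ) (L N : ℕ) (hL : 1 ≤ L) :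
    ((J z (g ^ L) N).card - 2) * L ≤ (Pl z g L (N * L)).card * 2 := by
  classical
  have hgR : (2 : ℝ) ≤ g := by exact_mod_cast hg
  set Js := (J z (g ^ L) N).filter (fun j => 2 ≤ j) with hJs
  have hc : (J z (g ^ L) N).card - 2 ≤ Js.card := by
    have h1 : J z (g ^ L) N ⊆ Js ∪ range 2 := by
      intro j hj
      by_cases h : 2 ≤ j
      · exact mem_union_left _ (mem_filter.2 ⟨hj, h⟩)
      · exact mem_union_right _ (mem_range.2 (by omega))
    have h2 := (card_le_card h1).trans (card_union_le _ _)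
    rw [card_range] at h2
    omega
  have hP : ∀ j ∈ Js, ∃ P : ℕ, (j - 1) * L ≤ P ∧ P < j * L ∧
      1 / (2 * (g : ℝ)) ≤ nd (z * (g : ℝ) ^ P) := by
    intro j hj
    obtain ⟨hj1, hj2⟩ := mem_filter.1 hj
    obtain ⟨i, rfl⟩ : ∃ i, j = i + 1 := ⟨j - 1, by omega⟩
    have h1 := th_ge (Nat.one_le_pow _ _ (by omega)) (mem_filter.1 hj1).2
    obtain ⟨L', rfl⟩ : ∃ L', L = L' + 1 := ⟨L - 1, by omega⟩
    push_cast at h1
    obtain ⟨i', hi', h2⟩ := exists_place hg L' (z * ((g : ℝ) ^ (L' + 1)) ^ i) h1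
    refine ⟨i * (L' + 1) + i', by simp, by nlinarith, ?_⟩
    rw [pow_add, mul_comm i, pow_mul, ← mul_assoc]
    exact h2
  choose! P hP1 hP2 hP3 using hP
  have key := card_mul_le_card_mul (s := Js) (t := Pl z g L (N * L))
    (fun j p => p ≤ P j ∧ P j < p + L) (m := L) (n := 2) ?_ ?_
  · exact (Nat.mul_le_mul_right _ hc).trans key
  · intro j hj
    obtain ⟨hj1, hj2⟩ := mem_filter.1 hj
    have hjN := mem_range.1 (mem_filter.1 hj1).1
    have h1 := hP1 j hj
    have h2 := hP2 j hj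
    have h3 := hP3 j hj
    have h4 : L ≤ P j := by
      obtain ⟨i, rfl⟩ : ∃ i, j = i + 2 := ⟨j - 2, by omega⟩
      have : i + 2 - 1 = i + 1 := by omega
      rw [this] at h1
      nlinarith
    have h5 : P j < N * L := h2.trans_le (Nat.mul_le_mul_right _ hjN.le)
    calc L = (range L).card := (card_range L).symm
      _ ≤ _ := by
        apply card_le_card_of_injOn (fun l => P j - l)
        · intro l hl
          have hl' := mem_range.1 (mem_coe.1 hl)
          rw [mem_coe, mem_bipartiteAbove]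
          refine ⟨mem_filter.2 ⟨mem_range.2 (by show P j - l < N * L; omega), ?_⟩, ?_⟩
          · have h6 : z * (g : ℝ) ^ P j = z * (g : ℝ) ^ (P j - l) * (g : ℝ) ^ l := by
              rw [mul_assoc, ← pow_add]
              congr 2
              omega
            rw [h6] at h3
            have h7 := h3.trans (nd_mul_pow _ g l)
            have h8 : (g : ℝ) ^ (l + 1) ≤ (g : ℝ) ^ L := pow_le_pow_right₀ (by linarith) (by omega)
            rw [div_le_iff₀ (by positivity)] at h7 ⊢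
            have h9 := nd_nonneg (z * (g : ℝ) ^ (P j - l))
            calc (1 : ℝ) ≤ nd (z * (g : ℝ) ^ (P j - l)) * (g : ℝ) ^ l * (2 * g) := h7
              _ = nd (z * (g : ℝ) ^ (P j - l)) * (2 * (g : ℝ) ^ (l + 1)) := by ring
              _ ≤ nd (z * (g : ℝ) ^ (P j - l)) * (2 * (g : ℝ) ^ L) := by gcongr
          · show P j - l ≤ P j ∧ P j < P j - l + L
            omega
        · intro l hl l' hl' h
          have hl1 := mem_range.1 (mem_coe.1 hl)
          have hl2 := mem_range.1 (mem_coe.1 hl')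
          simp only at h
          omega
  · intro p _
    have hsub : bipartiteBelow (fun j p => p ≤ P j ∧ P j < p + L) Js p ⊆
        {p / L + 1, p / L + 2} := by
      intro j hj
      rw [mem_bipartiteBelow] at hj
      obtain ⟨hj, h1, h2⟩ := hj
      have h3 := hP1 j hj
      have h4 := hP2 j hj
      obtain ⟨hj1, hj2⟩ := mem_filter.1 hj
      have h5 := Nat.div_add_mod p L
      have h6 := Nat.mod_lt p (by omega : 0 < L)
      set w := p / L with hw
      obtain ⟨i, rfl⟩ : ∃ i, j = i + 1 := ⟨j - 1, by omega⟩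
      rw [Nat.add_sub_cancel] at h3
      have h7 : w < i + 1 := by
        by_contra hc
        push Not at hc
        have : (i + 1) * L ≤ L * w := by rw [mul_comm L]; exact Nat.mul_le_mul_right _ hc
        omega
      have h8 : i < w + 2 := by
        by_contra hc
        push Not at hc
        have : (w + 2) * L ≤ i * L := Nat.mul_le_mul_right _ hc
        have h9 : (w + 2) * L = L * w + 2 * L := by ring
        omega
      simp only [mem_insert, mem_singleton]
      omega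
    exact (card_le_card hsub).trans card_le_two

/-- **Many places** where `z g ^ p` is not near an integer. -/
theorem many_places {z : ℝ} {g L : ℕ} {α β γ : ℤ} {p : ℕ} (hg : 2 ≤ g) (hL : 2 ≤ L)
    (hp : p.Prime) (hα : (p : ℤ) ∣ α) (hβ : (p : ℤ) ∣ β)
    (hγ : ¬ (p : ℤ) ∣ γ) (hpg : ¬ p ∣ g) (hz : (α : ℝ) * z ^ 2 + β * z + γ = 0)
    (hbα : |α| ≤ (g : ℤ) ^ L) : ∃ n₀ : ℕ, ∀ n ≥ n₀, L * n ≤ 72 * (Pl z g L n).card ^ 2 := by
  obtain ⟨W, hW⟩ := exists_nat_ge (|(α : ℝ)| * (2 * |z| + 1) + |(β : ℝ)|)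
  refine ⟨(4 * (W + 6) ^ 2 + 2) * L, fun n hn => ?_⟩
  have hb3 : 3 ≤ g ^ L := by
    calc 3 ≤ 2 ^ 2 := by norm_num
      _ ≤ g ^ 2 := Nat.pow_le_pow_left hg 2
      _ ≤ g ^ L := Nat.pow_le_pow_right (by omega) hL
  set N := n / L with hN
  have h1 := Nat.div_add_mod n L
  have h2 := Nat.mod_lt n (by omega : 0 < L)
  rw [← hN] at h1
  have h3 : 4 * (W + 6) ^ 2 + 2 ≤ N := by
    rw [hN, Nat.le_div_iff_mul_le (by omega)]
    exact hn
  have hpb : ¬ p ∣ g ^ L := fun h => hpg (hp.dvd_of_dvd_pow h)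
  have h4 := many_nonzero z (g ^ L) hp hα hβ hγ hpb hz hb3 (by push_cast; exact hbα) hW
    (N := N) (by omega)
  have h5 := places_ge hg z L N (by omega)
  have h6 : (Pl z g L (N * L)).card ≤ (Pl z g L n).card := by
    apply card_le_card
    unfold Pl
    apply filter_subset_filter
    apply range_subset_range.2
    rw [mul_comm]
    omega
  set K := (J z (g ^ L) N).card with hK
  set Q := (Pl z g L n).card with hQ
  have h7 : 6 ≤ K := by
    by_contra hc
    push Not at hc
    have h7 : K ^ 2 ≤ 5 ^ 2 := Nat.pow_le_pow_left (by omega) 2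
    have h8 : 6 ^ 2 ≤ (W + 6) ^ 2 := Nat.pow_le_pow_left (by omega) 2
    omega
  have h8 : 2 * K ≤ 3 * (K - 2) := by omega
  have h9 : K * L ≤ 3 * Q := by
    have : 2 * K * L ≤ 3 * (K - 2) * L := Nat.mul_le_mul_right _ h8
    nlinarith
  have h10 : (K * L) ^ 2 ≤ (3 * Q) ^ 2 := Nat.pow_le_pow_left h9 2
  have h11 : N * L ^ 2 ≤ 4 * K ^ 2 * L ^ 2 := Nat.mul_le_mul_right _ h4
  have h12 : n ≤ 2 * (L * N) := by
    have : L * 1 ≤ L * N := Nat.mul_le_mul_left _ (by omega)
    omega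
  have h13 : L * n ≤ 2 * (N * L ^ 2) := by
    have := Nat.mul_le_mul_left L h12
    nlinarith
  nlinarith

end Pool.Agent.U810.SW
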