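import Pool.Agent.U810.SM.Rot

/-!
# Multiples of a real number in an interval

If `‖q θ‖ ≥ 1 / M` for all `1 ≤ q ≤ Q`, then for every `x` at most `M / Q + 6 δ M + 2` of the `m < M`
have `m θ ∈ [x, x + δ]` modulo `1`.
-/

set_option autoImplicit false

open Finset

namespace Pool.Agent.U810.SW

open Pool.Agent.U810.SM

/-- the set of the `m < M` with `m θ ∈ [x, x + δ]` modulo `1` -/
noncomputable def H (θ x δ : ℝ) (M : ℕ) : Finset ℕ :=
  @filter ℕ (fun m : ℕ => ∃ b : ℤ, 0 ≤ (m : ℝ) * θ - x - b ∧ (m : ℝ) * θ - x - b ≤ δ)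
    (Classical.decPred _) (range M)

lemma mem_H {θ x δ : ℝ} {M m : ℕ} : m ∈ H θ x δ M ↔
    m < M ∧ ∃ b : ℤ, 0 ≤ (m : ℝ) * θ - x - b ∧ (m : ℝ) * θ - x - b ≤ δ := by
  let _ : DecidablePred (fun m : ℕ => ∃ b : ℤ, 0 ≤ (m : ℝ) * θ - x - b ∧
    (m : ℝ) * θ - x - b ≤ δ) := Classical.decPred _
  unfold H
  rw [mem_filter, mem_range]

lemma H_neg (θ x δ : ℝ) (M : ℕ) : H θ x δ M = H (-θ) (-x - δ) δ M := by
  ext m
  rw [mem_H, mem_H]
  refine and_congr_right fun _ => ⟨?_, ?_⟩
  · rintro ⟨b, h1, h2⟩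
    refine ⟨-b, ?_, ?_⟩ <;> push_cast <;> linarith
  · rintro ⟨b, h1, h2⟩
    refine ⟨-b, ?_, ?_⟩ <;> push_cast <;> linarith

/-- the case `β > 0` -/
lemma rot2_pos {θ x δ : ℝ} {M q : ℕ} {a : ℤ} {β : ℝ} (hq : 1 ≤ q) (hδ1 : (q : ℝ) * δ ≤ 1 / 2)
    (hβ : (q : ℝ) * θ = a + β) (hβ0 : 0 < β) (hβδ : β ≤ δ) (hMβ : 1 ≤ M * β)
    (hmin : ∀ d : ℕ, 1 ≤ d → d < q → ∀ b : ℤ, δ < |(d : ℝ) * θ - b|) :
    ((H θ x δ M).card : ℝ) ≤ 6 * δ * M + 2 := by
  classical
  have hqR : (1 : ℝ) ≤ q := by exact_mod_cast hq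
  have hδ0 : 0 < δ := hβ0.trans_le hβδ
  set S := (range M).filter (fun m : ℕ => ∃ b : ℤ, 0 ≤ (m : ℝ) * θ - x - b ∧
    (m : ℝ) * θ - x - b < β) with hSdef
  set R := (range q).filter (fun m : ℕ => ∃ b : ℤ, 0 ≤ (m : ℝ) * θ - x - b ∧
    (m : ℝ) * θ - x - b ≤ δ) with hRdef
  have hS : (S.card : ℝ) ≤ 2 * β * M + 1 := by
    have h1 := spaced S M (1 / (2 * β)) (by positivity)
      (fun s hs => mem_range.1 (mem_filter.1 hs).1) ?_
    · have e : (M : ℝ) / (1 / (2 * β)) = 2 * β * M := by field_simp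
      rwa [e] at h1
    intro s hs s' hs' hlt
    obtain ⟨-, b1, hs1, hs2⟩ := mem_filter.1 hs
    obtain ⟨-, b2, hs3, hs4⟩ := mem_filter.1 hs'
    obtain ⟨d, rfl⟩ : ∃ d, s' = s + d := ⟨s' - s, by omega⟩
    have hd : 1 ≤ d := by omega
    have hdR : (1 : ℝ) ≤ d := by exact_mod_cast hd
    set b : ℤ := b2 - b1 with hb
    have h2 : (d : ℝ) * θ - b = (((s + d : ℕ) : ℝ) * θ - x - b2) - ((s : ℝ) * θ - x - b1) := by
      rw [hb]
      push_cast
      ring
    have h3 : |(d : ℝ) * θ - b| < β := by rw [h2, abs_lt]; constructor <;> linarith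
    set t : ℤ := q * b - d * a with ht
    have h4 : (q : ℝ) * (d * θ - b) = d * β - t := by
      rw [ht]; push_cast
      linear_combination (d : ℝ) * hβ
    have h5 : |(d : ℝ) * β - t| < q * β := by
      rw [← h4, abs_mul, abs_of_pos (by linarith : (0 : ℝ) < q)]
      exact mul_lt_mul_of_pos_left h3 (by linarith)
    have h6 : (q : ℝ) * β ≤ 1 / 2 := by nlinarith
    rw [abs_lt] at h5
    have h7 : (1 : ℝ) / 2 ≤ d * β := by
      rcases lt_trichotomy t 0 with h | h | h
      · have h8 : (t : ℝ) ≤ -1 := by exact_mod_cast (by omega : t ≤ -1)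
        have : 0 < (d : ℝ) * β := by positivity
        linarith
      · rw [h] at h5
        push_cast at h5
        have h8 : (d : ℝ) < q := by
          by_contra hc
          push Not at hc
          nlinarith
        have h9 : d < q := by exact_mod_cast h8
        have := hmin d hd h9 b
        linarith
      · have h8 : (1 : ℝ) ≤ t := by exact_mod_cast (by omega : 1 ≤ t)
        linarith
    rw [div_le_iff₀ (by positivity)]
    push_cast
    linarith
  have hR : R.card ≤ 1 := by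
    rw [card_le_one]
    have key : ∀ r ∈ R, ∀ r' ∈ R, ¬ r < r' := by
      intro r hr r' hr' hlt
      obtain ⟨hr0, b1, h1, h2⟩ := mem_filter.1 hr
      obtain ⟨hr'0, b2, h3, h4⟩ := mem_filter.1 hr'
      rw [mem_range] at hr'0
      obtain ⟨d, rfl⟩ : ∃ d, r' = r + d := ⟨r' - r, by omega⟩
      have h5 := hmin d (by omega) (by omega) (b2 - b1)
      have h6 : (d : ℝ) * θ - ((b2 - b1 : ℤ) : ℝ) =
          (((r + d : ℕ) : ℝ) * θ - x - b2) - ((r : ℝ) * θ - x - b1) := by
        push_cast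
        ring
      rw [h6, lt_abs] at h5
      rcases h5 with h5 | h5 <;> linarith
    intro r hr r' hr'
    rcases lt_trichotomy r r' with h | h | h
    · exact absurd h (key r hr r' hr')
    · exact h
    · exact absurd h (key r' hr' r hr)
  have hG : (H θ x δ M).card ≤ ((S ∪ R) ×ˢ range (⌊δ / β⌋₊ + 1)).card := by
    have hsub : H θ x δ M ⊆ ((S ∪ R) ×ˢ range (⌊δ / β⌋₊ + 1)).image (fun p => p.1 + p.2 * q) := by
      intro m hm
      obtain ⟨hmM, b, hb0, hbδ⟩ := mem_H.1 hm
      set f := (m : ℝ) * θ - x - b with hf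
      set k := ⌊f / β⌋₊ with hk
      have hk1 : (k : ℝ) * β ≤ f := by
        have := Nat.floor_le (a := f / β) (by positivity)
        rwa [le_div_iff₀ hβ0] at this
      have hk2 : f < (k + 1) * β := by
        have := Nat.lt_floor_add_one (f / β)
        rwa [div_lt_iff₀ hβ0] at this
      have hkδ : k ≤ ⌊δ / β⌋₊ := Nat.floor_le_floor (div_le_div_of_nonneg_right hbδ hβ0.le)
      have hback : ∀ j r : ℕ, m = r + j * q →
          (r : ℝ) * θ - x - ((b - j * a : ℤ) : ℝ) = f - j * β := by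
        intro j r hr
        have h2 : (m : ℝ) = r + j * q := by exact_mod_cast hr
        have h3 : (r : ℝ) * θ = m * θ - j * (q * θ) := by rw [h2]; ring
        push_cast
        rw [hf]
        linear_combination h3 - (j : ℝ) * hβ
      rcases Nat.lt_or_ge m (k * q) with hkq | hkq
      · -- the start is below `q`
        have hk' : m / q < k := by
          rw [Nat.div_lt_iff_lt_mul (by omega)]
          exact hkq
        have h1 := hback (m / q) (m % q) (by rw [mul_comm]; exact (Nat.mod_add_div m q).symm)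
        have h2 : m % q < q := Nat.mod_lt _ (by omega)
        have h3 : ((m / q : ℕ) : ℝ) ≤ k := by exact_mod_cast hk'.le
        have h4 : ((m / q : ℕ) : ℝ) * β ≤ k * β := mul_le_mul_of_nonneg_right h3 hβ0.le
        have h5 : 0 ≤ ((m / q : ℕ) : ℝ) * β := by positivity
        rw [mem_image]
        refine ⟨(m % q, m / q), ?_, by rw [mul_comm]; exact Nat.mod_add_div m q⟩
        rw [mem_product]
        refine ⟨mem_union_right _ ?_, ?_⟩
        · rw [hRdef, mem_filter, mem_range]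
          refine ⟨h2, b - (m / q : ℕ) * a, ?_, ?_⟩
          · simp only
            rw [h1]; linarith
          · simp only
            rw [h1]; linarith
        · simp only [mem_range]
          omega
      · obtain ⟨s, hs⟩ : ∃ s, m = s + k * q := ⟨m - k * q, by omega⟩
        have h1 := hback k s hs
        rw [mem_image]
        refine ⟨(s, k), ?_, hs.symm⟩
        rw [mem_product]
        refine ⟨mem_union_left _ ?_, ?_⟩
        · rw [hSdef, mem_filter, mem_range]
          refine ⟨by simp only; omega, b - k * a, ?_, ?_⟩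
          · simp only
            rw [h1]; linarith
          · simp only
            rw [h1]; linarith
        · simp only [mem_range]
          omega
    exact (card_le_card hsub).trans card_image_le
  rw [card_product, card_range] at hG
  have hSR : ((S ∪ R).card : ℝ) ≤ 2 * β * M + 2 := by
    have h1 : ((S ∪ R).card : ℝ) ≤ S.card + R.card := by exact_mod_cast card_union_le S R
    have h2 : (R.card : ℝ) ≤ 1 := by exact_mod_cast hR
    linarith
  have hG' : ((H θ x δ M).card : ℝ) ≤ (S ∪ R).card * (⌊δ / β⌋₊ + 1) := by exact_mod_cast hG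
  have hfl := Nat.floor_le (a := δ / β) (by positivity)
  have hM0 : (0 : ℝ) ≤ M := Nat.cast_nonneg _
  have h1 : ((S ∪ R).card : ℝ) * (⌊δ / β⌋₊ + 1) ≤ (2 * β * M + 2) * (δ / β + 1) :=
    mul_le_mul hSR (by linarith) (by positivity) (by positivity)
  have h2 : (2 * β * M + 2) * (δ / β + 1) = 2 * δ * M + 2 * β * M + 2 * (δ / β) + 2 := by
    field_simp
    ring
  have h3 : δ / β ≤ δ * M := by
    rw [div_le_iff₀ hβ0]
    nlinarith
  have h4 : β * M ≤ δ * M := mul_le_mul_of_nonneg_right hβδ hM0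
  linarith

/-- The rotation lemma for arbitrary intervals. -/
theorem rot2 {θ δ : ℝ} (x : ℝ) {M Q : ℕ} (hδ : 0 < δ) (hM : 1 ≤ M) (hQ : 1 ≤ Q)
    (hQδ : 2 * (Q : ℝ) * δ ≤ 1)
    (h : ∀ q : ℕ, 1 ≤ q → q ≤ Q → ∀ a : ℤ, 1 / (M : ℝ) ≤ |(q : ℝ) * θ - a|) :
    ((H θ x δ M).card : ℝ) ≤ M / Q + 6 * δ * M + 2 := by
  have hMR : (1 : ℝ) ≤ M := by exact_mod_cast hM
  have hQR : (1 : ℝ) ≤ Q := by exact_mod_cast hQ
  have hp1 : (0 : ℝ) ≤ M / Q := by positivity
  have hp2 : 0 ≤ δ * M := by positivity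
  by_cases hex : ∃ q : ℕ, 1 ≤ q ∧ q ≤ Q ∧ ∃ a : ℤ, |(q : ℝ) * θ - a| ≤ δ
  · classical
    have hex' : ∃ q : ℕ, 1 ≤ q ∧ ∃ a : ℤ, |(q : ℝ) * θ - a| ≤ δ := by
      obtain ⟨q, h1, -, h2⟩ := hex
      exact ⟨q, h1, h2⟩
    obtain ⟨q', hq'1, hq'Q, hq'2⟩ := hex
    set q := Nat.find hex' with hq
    obtain ⟨hq1, a, ha⟩ := Nat.find_spec hex'
    have hqq' : q ≤ q' := Nat.find_min' hex' ⟨hq'1, hq'2⟩
    have hmin : ∀ d : ℕ, 1 ≤ d → d < q → ∀ b : ℤ, δ < |(d : ℝ) * θ - b| := by
      intro d hd1 hd2 b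
      by_contra hcon
      push Not at hcon
      exact Nat.find_min hex' hd2 ⟨hd1, b, hcon⟩
    have hqQR : (q : ℝ) ≤ Q := by exact_mod_cast (hqq'.trans hq'Q)
    have hδ1 : (q : ℝ) * δ ≤ 1 / 2 := by nlinarith
    have hfr := h q hq1 (hqq'.trans hq'Q) a
    set β := (q : ℝ) * θ - a with hβ
    have hM' : 0 < 1 / (M : ℝ) := by positivity
    rcases lt_trichotomy β 0 with hb | hb | hb
    · rw [abs_of_neg hb] at hfr ha
      rw [div_le_iff₀ (by linarith)] at hfr
      rw [H_neg]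
      have h1 := rot2_pos (θ := -θ) (x := -x - δ) (M := M) (q := q) (a := -a) (β := -β) hq1 hδ1
        (by push_cast; rw [hβ]; ring) (by linarith) ha (by linarith) (by
          intro d hd1 hd2 b
          have h2 := hmin d hd1 hd2 (-b)
          have h3 : (d : ℝ) * (-θ) - b = -((d : ℝ) * θ - ((-b : ℤ) : ℝ)) := by push_cast; ring
          rw [h3, abs_neg]
          exact h2)
      linarith
    · exfalso
      rw [hb, abs_zero] at hfr
      linarith
    · rw [abs_of_pos hb] at hfr ha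
      rw [div_le_iff₀ (by linarith)] at hfr
      have h1 := rot2_pos (x := x) (M := M) (β := β) hq1 hδ1 (by rw [hβ]; ring) hb ha
        (by linarith) hmin
      linarith
  · have h1 := spaced (H θ x δ M) M Q (by linarith) (fun s hs => (mem_H.1 hs).1) ?_
    · linarith
    intro s hs s' hs' hlt
    obtain ⟨-, b1, hs1, hs2⟩ := mem_H.1 hs
    obtain ⟨-, b2, hs3, hs4⟩ := mem_H.1 hs'
    obtain ⟨d, rfl⟩ : ∃ d, s' = s + d := ⟨s' - s, by omega⟩
    have hd : 1 ≤ d := by omega
    by_contra hcon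
    push Not at hcon
    apply hex
    refine ⟨d, hd, ?_, b2 - b1, ?_⟩
    · have : (d : ℝ) < Q := by push_cast at hcon; linarith
      have : d < Q := by exact_mod_cast this
      omega
    · have h2 : (d : ℝ) * θ - ((b2 - b1 : ℤ) : ℝ) =
          (((s + d : ℕ) : ℝ) * θ - x - b2) - ((s : ℝ) * θ - x - b1) := by
        push_cast
        ring
      rw [h2, abs_le]
      constructor <;> linarith

end Pool.Agent.U810.SW
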