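import Mathlib

/-!
# Signed expansions of a quadratic irrational

`u N` is the integer nearest to `z b ^ N`, and `s N` are the digits of the signed expansion
`u N = Σ_{i ≤ N} s i b ^ (N - i)`. If `α z ² + β z + γ = 0` with a prime `p` dividing `α` and `β` and
neither `γ` nor `b`, then at least `√N / 2` of the first `N` signed digits are different from `0`.
-/

set_option autoImplicit false

open Finset

namespace Pool.Agent.U810.SW

/-- the integer nearest to `z b ^ N` -/
noncomputable def u (z : ℝ) (b : ℕ) (N : ℕ) : ℤ := round (z * (b : ℝ) ^ N)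

/-- the difference of `z b ^ N` and the nearest integer -/
noncomputable def th (z : ℝ) (b : ℕ) (N : ℕ) : ℝ := z * (b : ℝ) ^ N - u z b N

/-- the signed digits -/
noncomputable def s (z : ℝ) (b : ℕ) : ℕ → ℤ
  | 0 => u z b 0
  | N + 1 => u z b (N + 1) - b * u z b N

variable (z : ℝ) (b : ℕ)

lemma th_le (N : ℕ) : |th z b N| ≤ 1 / 2 := abs_sub_round _

lemma s_succ (N : ℕ) : (s z b (N + 1) : ℝ) = b * th z b N - th z b (N + 1) := by
  unfold th
  rw [s]
  push_cast
  ring

lemma u_succ (N : ℕ) : u z b (N + 1) = b * u z b N + s z b (N + 1) := by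
  rw [s]; ring

/-- the products of the signed digits and the truncations -/
noncomputable def S (m : ℕ) : ℤ := ∑ i ∈ range (m + 1), s z b i * u z b (m - i)

/-- the square of the signed expansion -/
noncomputable def r (m : ℕ) : ℤ := ∑ i ∈ range (m + 1), s z b i * s z b (m - i)

lemma S_succ (m : ℕ) : S z b (m + 1) = b * S z b m + r z b (m + 1) := by
  unfold S r
  rw [sum_range_succ, sum_range_succ (fun i => s z b i * s z b (m + 1 - i)), mul_sum, Nat.sub_self,
    ← add_assoc, ← sum_add_distrib]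
  congr 1
  refine sum_congr rfl fun i hi => ?_
  rw [mem_range] at hi
  have : m + 1 - i = (m - i) + 1 := by omega
  rw [this, u_succ]
  ring

lemma u_eq (m : ℕ) : u z b m = ∑ i ∈ range (m + 1), s z b i * (b : ℤ) ^ (m - i) := by
  induction m with
  | zero => simp [s]
  | succ m ih =>
    rw [sum_range_succ, Nat.sub_self, pow_zero, mul_one, u_succ, ih, mul_sum]
    congr 1
    refine sum_congr rfl fun i hi => ?_
    rw [mem_range] at hi
    have : m + 1 - i = (m - i) + 1 := by omega
    rw [this, pow_succ]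
    ring

/-- the error term of the square -/
noncomputable def T (m : ℕ) : ℝ :=
  z * th z b m + ∑ i ∈ range (m + 1), (s z b i : ℝ) * th z b (m - i)

lemma T_eq (m : ℕ) : T z b m = z ^ 2 * (b : ℝ) ^ m - S z b m := by
  have h1 : ∑ i ∈ range (m + 1), (s z b i : ℝ) * th z b (m - i) = z * u z b m - S z b m := by
    rw [u_eq, S]
    push_cast
    rw [mul_sum, ← sum_sub_distrib]
    refine sum_congr rfl fun i _ => ?_
    unfold th
    ring
  unfold T
  rw [h1]
  unfold th
  ring

/-- the integers `e m` -/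
noncomputable def e (α β γ : ℤ) (m : ℕ) : ℤ :=
  -γ * (b : ℤ) ^ m - α * S z b m - β * u z b m

lemma e_succ (α β γ : ℤ) (m : ℕ) : e z b α β γ (m + 1) =
    b * e z b α β γ m - α * r z b (m + 1) - β * s z b (m + 1) := by
  unfold e
  rw [S_succ, u_succ, pow_succ]
  ring

lemma e_real {α β γ : ℤ} (hz : (α : ℝ) * z ^ 2 + β * z + γ = 0) (m : ℕ) :
    (e z b α β γ m : ℝ) = α * T z b m + β * th z b m := by
  rw [T_eq]
  unfold e th
  push_cast
  linear_combination (-(b : ℝ) ^ m) * hz

lemma e_ne {α β γ : ℤ} {p : ℕ} (hp : p.Prime) (hα : (p : ℤ) ∣ α) (hβ : (p : ℤ) ∣ β)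
    (hγ : ¬ (p : ℤ) ∣ γ) (hb : ¬ p ∣ b) (m : ℕ) : 1 ≤ |e z b α β γ m| := by
  have hpi : Prime (p : ℤ) := Nat.prime_iff_prime_int.1 hp
  apply Int.one_le_abs
  intro h0
  have h1 : γ * (b : ℤ) ^ m = -(α * S z b m) - β * u z b m := by
    unfold e at h0
    linear_combination -h0
  have h2 : (p : ℤ) ∣ γ * (b : ℤ) ^ m := by
    rw [h1]
    exact dvd_sub ((hα.mul_right _).neg_right) (hβ.mul_right _)
  rcases hpi.dvd_or_dvd h2 with h3 | h3
  · exact hγ h3
  · exact hb (by exact_mod_cast hpi.dvd_of_dvd_pow h3)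

/-- the set of the places `< N` of the digits `≠ 0` -/
noncomputable def J (N : ℕ) : Finset ℕ := (range N).filter (fun j => s z b j ≠ 0)

lemma s_zero_le : |(s z b 0 : ℝ)| ≤ |z| + 1 := by
  have h1 := th_le z b 0
  have h2 : (s z b 0 : ℝ) = z - th z b 0 := by
    unfold th
    rw [s]
    simp
  rw [h2]
  have := abs_sub z (th z b 0)
  linarith

lemma s_succ_le (hb : 1 ≤ b) (N : ℕ) : |(s z b (N + 1) : ℝ)| ≤ (b + 1) / 2 := by
  have h1 := th_le z b N
  have h2 := th_le z b (N + 1)
  have hbR : (1 : ℝ) ≤ b := by exact_mod_cast hb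
  rw [s_succ]
  have h3 := abs_sub ((b : ℝ) * th z b N) (th z b (N + 1))
  rw [abs_mul, Nat.abs_cast] at h3
  nlinarith

/-- the sum of the absolute values of the digits -/
lemma sum_s_le (hb : 1 ≤ b) (N : ℕ) :
    ∑ i ∈ range N, |(s z b i : ℝ)| ≤ |z| + 1 + b * (J z b N).card := by
  have hbR : (1 : ℝ) ≤ b := by exact_mod_cast hb
  have h1 : ∑ i ∈ range N, |(s z b i : ℝ)| = ∑ i ∈ J z b N, |(s z b i : ℝ)| := by
    unfold J
    rw [sum_filter]
    refine sum_congr rfl fun i _ => ?_
    split_ifs with h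
    · rfl
    · push Not at h
      rw [h]; simp
  rw [h1]
  have h2 : ∀ i ∈ J z b N, |(s z b i : ℝ)| ≤ (if i = 0 then |z| + 1 else 0) + b := by
    intro i _
    split_ifs with h
    · rw [h]
      have := s_zero_le z b
      linarith
    · obtain ⟨j, rfl⟩ := Nat.exists_eq_succ_of_ne_zero h
      have := s_succ_le z b hb j
      linarith
  refine (sum_le_sum h2).trans ?_
  rw [sum_add_distrib, sum_const, nsmul_eq_mul, sum_ite_eq']
  have : (0 : ℝ) ≤ |z| := abs_nonneg z
  split_ifs <;> nlinarith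

lemma sum_th_le (hb : 3 ≤ b) (N : ℕ) : ∑ j ∈ range N, |th z b j| ≤ (J z b N).card + 2 := by
  have hbR : (3 : ℝ) ≤ b := by exact_mod_cast hb
  have h1 : ∀ j, (b : ℝ) * |th z b j| ≤ |(s z b (j + 1) : ℝ)| + |th z b (j + 1)| := by
    intro j
    have h2 : (b : ℝ) * th z b j = s z b (j + 1) + th z b (j + 1) := by rw [s_succ]; ring
    have h3 := abs_add_le (s z b (j + 1) : ℝ) (th z b (j + 1))
    rwa [← h2, abs_mul, Nat.abs_cast] at h3
  have h2 : (b : ℝ) * ∑ j ∈ range N, |th z b j| ≤
      ∑ j ∈ range N, |(s z b (j + 1) : ℝ)| + ∑ j ∈ range N, |th z b (j + 1)| := by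
    rw [mul_sum, ← sum_add_distrib]
    exact sum_le_sum fun j _ => h1 j
  have h3 : ∑ j ∈ range N, |th z b (j + 1)| ≤ ∑ j ∈ range N, |th z b j| + 1 / 2 := by
    have h4 := sum_range_succ' (fun j => |th z b j|) N
    have h5 := sum_range_succ (fun j => |th z b j|) N
    have h6 := th_le z b N
    have h7 := abs_nonneg (th z b 0)
    linarith
  have h4 : ∑ j ∈ range N, |(s z b (j + 1) : ℝ)| ≤ (b + 1) / 2 * ((J z b N).card + 1) := by
    have h5 : ∀ j ∈ range N, |(s z b (j + 1) : ℝ)| ≤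
        if s z b (j + 1) ≠ 0 then ((b : ℝ) + 1) / 2 else 0 := by
      intro j _
      split_ifs with h
      · exact s_succ_le z b (by omega) j
      · push Not at h
        rw [h]; simp
    refine (sum_le_sum h5).trans ?_
    rw [← sum_filter, sum_const, nsmul_eq_mul, mul_comm]
    apply mul_le_mul_of_nonneg_left _ (by positivity)
    have h6 : ((range N).filter (fun j => s z b (j + 1) ≠ 0)).card ≤ (J z b (N + 1)).card := by
      apply card_le_card_of_injOn (fun j => j + 1)
      · intro j hj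
        have hj' := mem_filter.1 (mem_coe.1 hj)
        rw [mem_range] at hj'
        exact mem_coe.2 (mem_filter.2 ⟨mem_range.2 (by show j + 1 < N + 1; omega), hj'.2⟩)
      · intro j _ j' _ h
        simpa using h
    have h7 : (J z b (N + 1)).card ≤ (J z b N).card + 1 := by
      unfold J
      rw [range_add_one, filter_insert]
      split_ifs
      · exact card_insert_le _ _
      · omega
    exact_mod_cast h6.trans h7
  have hK : (0 : ℝ) ≤ (J z b N).card := Nat.cast_nonneg _
  nlinarith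

lemma sum_T_le (hb : 3 ≤ b) (N : ℕ) :
    ∑ m ∈ range N, |T z b m| ≤
      (2 * |z| + 1 + b * (J z b N).card) * ((J z b N).card + 2) := by
  have hth := sum_th_le z b hb N
  have hs := sum_s_le z b (by omega) N
  have hz := abs_nonneg z
  have h1 : ∑ m ∈ range N, |T z b m| ≤ |z| * ∑ m ∈ range N, |th z b m| +
      ∑ m ∈ range N, ∑ i ∈ range (m + 1), |(s z b i : ℝ)| * |th z b (m - i)| := by
    rw [mul_sum, ← sum_add_distrib]
    refine sum_le_sum fun m _ => ?_
    unfold T
    refine (abs_add_le _ _).trans ?_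
    rw [abs_mul]
    refine add_le_add le_rfl ((abs_sum_le_sum_abs _ _).trans (le_of_eq ?_))
    exact sum_congr rfl fun i _ => abs_mul _ _
  have h2 : ∑ m ∈ range N, ∑ i ∈ range (m + 1), |(s z b i : ℝ)| * |th z b (m - i)| ≤
      (∑ i ∈ range N, |(s z b i : ℝ)|) * ∑ j ∈ range N, |th z b j| := by
    rw [sum_mul_sum, ← sum_product', sum_sigma']
    have hinj : Set.InjOn (fun x : (_ : ℕ) × ℕ => (x.2, x.1 - x.2))
        ((range N).sigma fun m => range (m + 1)) := by
      rintro ⟨m, i⟩ h ⟨m', i'⟩ h' heq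
      simp only [coe_sigma, Set.mem_sigma_iff, coe_range, Set.mem_Iio] at h h'
      simp only [Prod.mk.injEq] at heq
      obtain ⟨h3, h4⟩ := heq
      subst h3
      have : m = m' := by omega
      subst this
      rfl
    rw [← sum_image (f := fun x : ℕ × ℕ => |(s z b x.1 : ℝ)| * |th z b x.2|) hinj]
    refine sum_le_sum_of_subset_of_nonneg ?_ fun _ _ _ => by positivity
    intro x hx
    rw [mem_image] at hx
    obtain ⟨⟨m, i⟩, h, rfl⟩ := hx
    simp only [mem_sigma, mem_range] at h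
    simp only [mem_product, mem_range]
    omega
  have h3 : (∑ i ∈ range N, |(s z b i : ℝ)|) * ∑ j ∈ range N, |th z b j| ≤
      (|z| + 1 + b * (J z b N).card) * ((J z b N).card + 2) :=
    mul_le_mul hs hth (sum_nonneg fun _ _ => abs_nonneg _) (by positivity)
  nlinarith

/-- the places with a digit or a coefficient of the square `≠ 0` -/
lemma card_F (N : ℕ) : ((range N).filter (fun m => s z b m ≠ 0 ∨ r z b m ≠ 0)).card ≤
    (J z b N).card + (J z b N).card ^ 2 := by
  have h1 : (range N).filter (fun m => s z b m ≠ 0 ∨ r z b m ≠ 0) ⊆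
      J z b N ∪ (J z b N ×ˢ J z b N).image (fun x => x.1 + x.2) := by
    intro m hm
    obtain ⟨hmN, h⟩ := mem_filter.1 hm
    rw [mem_range] at hmN
    rcases h with h | h
    · exact mem_union_left _ (mem_filter.2 ⟨mem_range.2 hmN, h⟩)
    · apply mem_union_right
      unfold r at h
      obtain ⟨i, hi, hne⟩ := exists_ne_zero_of_sum_ne_zero h
      rw [mem_range] at hi
      rw [mem_image]
      refine ⟨(i, m - i), ?_, ?_⟩
      · rw [mem_product]
        unfold J
        simp only [mem_filter, mem_range]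
        exact ⟨⟨by omega, left_ne_zero_of_mul hne⟩, ⟨by omega, right_ne_zero_of_mul hne⟩⟩
      · simp only
        omega
  refine (card_le_card h1).trans ((card_union_le _ _).trans ?_)
  refine Nat.add_le_add_left (card_image_le.trans ?_) _
  rw [card_product, sq]

/-- **Many signed digits are different from `0`.** -/
theorem many_nonzero {α β γ : ℤ} {p : ℕ} (hp : p.Prime) (hα : (p : ℤ) ∣ α) (hβ : (p : ℤ) ∣ β)
    (hγ : ¬ (p : ℤ) ∣ γ) (hpb : ¬ p ∣ b) (hz : (α : ℝ) * z ^ 2 + β * z + γ = 0) (hb : 3 ≤ b)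
    (hbα : |α| ≤ b) {W : ℕ} (hW : |(α : ℝ)| * (2 * |z| + 1) + |(β : ℝ)| ≤ W) {N : ℕ}
    (hN : 4 * (W + 6) ^ 2 < N) : N ≤ 4 * (J z b N).card ^ 2 := by
  set K := (J z b N).card with hK
  have hbR : (3 : ℝ) ≤ b := by exact_mod_cast hb
  have hαR : |(α : ℝ)| ≤ b := by exact_mod_cast hbα
  set F := (range N).filter (fun m => s z b m ≠ 0 ∨ r z b m ≠ 0) with hF
  set G := (range N).filter (fun m => (b : ℤ) ^ 2 ≤ |e z b α β γ m|) with hG
  have hFc : F.card ≤ K + K ^ 2 := card_F z b N
  -- the sum of the `|e m|`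
  have hsum : ∑ m ∈ range N, |(e z b α β γ m : ℝ)| ≤ (W + b ^ 2 * K) * (K + 2) := by
    have h1 : ∑ m ∈ range N, |(e z b α β γ m : ℝ)| ≤
        |(α : ℝ)| * ∑ m ∈ range N, |T z b m| + |(β : ℝ)| * ∑ m ∈ range N, |th z b m| := by
      rw [mul_sum, mul_sum, ← sum_add_distrib]
      refine sum_le_sum fun m _ => ?_
      rw [e_real z b hz]
      refine (abs_add_le _ _).trans ?_
      rw [abs_mul, abs_mul]
    have h2 := sum_T_le z b hb N
    have h3 := sum_th_le z b hb N
    rw [← hK] at h2 h3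
    have h4 := mul_le_mul_of_nonneg_left h2 (abs_nonneg (α : ℝ))
    have h5 := mul_le_mul_of_nonneg_left h3 (abs_nonneg (β : ℝ))
    have hK0 : (0 : ℝ) ≤ K := Nat.cast_nonneg _
    have h6 : |(α : ℝ)| * (b * K) ≤ b ^ 2 * K := by
      have : |(α : ℝ)| * (b * K) ≤ b * (b * K) := mul_le_mul_of_nonneg_right hαR (by positivity)
      linarith
    have h7 : |(α : ℝ)| * (2 * |z| + 1 + b * K) + |(β : ℝ)| ≤ W + b ^ 2 * K := by
      linarith
    have h8 : (|(α : ℝ)| * (2 * |z| + 1 + b * K) + |(β : ℝ)|) * (K + 2) ≤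
        (W + b ^ 2 * K) * (K + 2) := mul_le_mul_of_nonneg_right h7 (by positivity)
    linarith
  have hGc : (G.card : ℝ) * b ^ 2 ≤ (W + b ^ 2 * K) * (K + 2) := by
    refine le_trans ?_ hsum
    have h1 : ∑ m ∈ G, (b : ℝ) ^ 2 ≤ ∑ m ∈ G, |(e z b α β γ m : ℝ)| := by
      refine sum_le_sum fun m hm => ?_
      have := (mem_filter.1 hm).2
      exact_mod_cast this
    rw [sum_const, nsmul_eq_mul] at h1
    refine h1.trans (sum_le_sum_of_subset_of_nonneg (filter_subset _ _) fun _ _ _ => abs_nonneg _)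
  have hGc' : (G.card : ℝ) ≤ (W + K) * (K + 2) := by
    have hK0 : (0 : ℝ) ≤ K := Nat.cast_nonneg _
    have hW0 : (0 : ℝ) ≤ W := Nat.cast_nonneg _
    have h1 : (W + (b : ℝ) ^ 2 * K) * (K + 2) ≤ (b ^ 2) * ((W + K) * (K + 2)) := by
      have hb2 : (1 : ℝ) ≤ (b : ℝ) ^ 2 := by nlinarith
      have h2 : (W : ℝ) ≤ b ^ 2 * W := le_mul_of_one_le_left hW0 hb2
      nlinarith
    have h2 : (0 : ℝ) < (b : ℝ) ^ 2 := by positivity
    have h3 : (b : ℝ) ^ 2 * G.card ≤ (b : ℝ) ^ 2 * ((W + K) * (K + 2)) := by linarith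
    exact le_of_mul_le_mul_left h3 h2
  have hGc'' : G.card ≤ (W + K) * (K + 2) := by exact_mod_cast hGc'
  -- each place `≥ 2` is in `G` or in `F` or next to `F`
  have hcov : range N ⊆ range 2 ∪ (G ∪ (F ∪ F.image (fun m => m + 1))) := by
    intro m hm
    rw [mem_range] at hm
    by_cases h2 : m < 2
    · exact mem_union_left _ (mem_range.2 h2)
    apply mem_union_right
    push Not at h2
    obtain ⟨n, rfl⟩ : ∃ n, m = n + 1 + 1 := ⟨m - 2, by omega⟩
    by_cases hmF : n + 1 + 1 ∈ F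
    · exact mem_union_right _ (mem_union_left _ hmF)
    by_cases hmF' : n + 1 ∈ F
    · exact mem_union_right _ (mem_union_right _ (mem_image.2 ⟨n + 1, hmF', rfl⟩))
    apply mem_union_left
    rw [hG, mem_filter, mem_range]
    refine ⟨hm, ?_⟩
    have h3 : s z b (n + 1 + 1) = 0 ∧ r z b (n + 1 + 1) = 0 := by
      rw [hF, mem_filter, mem_range] at hmF
      push Not at hmF
      exact hmF hm
    have h4 : s z b (n + 1) = 0 ∧ r z b (n + 1) = 0 := by
      rw [hF, mem_filter, mem_range] at hmF'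
      push Not at hmF'
      exact hmF' (by omega)
    rw [e_succ, h3.1, h3.2, e_succ, h4.1, h4.2]
    have h5 := e_ne z b hp hα hβ hγ hpb n
    have h6 : (b : ℤ) * (b * e z b α β γ n - α * 0 - β * 0) - α * 0 - β * 0 =
        b ^ 2 * e z b α β γ n := by ring
    rw [h6, abs_mul, abs_of_nonneg (by positivity : (0 : ℤ) ≤ (b : ℤ) ^ 2)]
    have h7 : (0 : ℤ) ≤ (b : ℤ) ^ 2 := by positivity
    nlinarith
  have h1 := card_le_card hcov
  have h2 := card_union_le (range 2) (G ∪ (F ∪ F.image (fun m => m + 1)))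
  have h3 := card_union_le G (F ∪ F.image (fun m => m + 1))
  have h4 := card_union_le F (F.image (fun m => m + 1))
  have h5 : (F.image (fun m => m + 1)).card ≤ F.card := card_image_le
  rw [card_range] at h1 h2
  have h6 : N ≤ 2 + ((W + K) * (K + 2) + 2 * (K + K ^ 2)) := by omega
  by_cases hKW : K < W + 6
  · exfalso
    have h7 : 2 + ((W + K) * (K + 2) + 2 * (K + K ^ 2)) ≤ 4 * (W + 6) ^ 2 := by
      have : K ≤ W + 6 := hKW.le
      nlinarith
    omega
  · push Not at hKW
    nlinarith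

end Pool.Agent.U810.SW
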